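import Pool.Agent.ABC.Slice

/-!
# The list covering number of an intersection of matroids is at most the sum of the densities

`M q` (`q ∈ ι`, `ι` finite and nonempty) are matroids on the finite set `α`; `d q` is a real number
with `|X| ≤ d q * r_q(X)` for every `X ⊆ α` (so `d q ≥ Δ(M q)`).  If every element gets a list of at
least `∑ d q` colours then one can choose colours from the lists such that every colour class is
independent in all the matroids.
-/

open Finset ABC in
theorem Pool.Agent.Results.MP_aa9a84_co.SumBound.result {α κ ι : Type} [Fintype α] [Fintype κ] [Fintype ι]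
    [Nonempty ι] (M : ι → Matroid α) (hE : ∀ q, (M q).E = Set.univ) (d : ι → ℝ)
    (hM : ∀ q, ∀ X : Finset α, ∃ I : Finset α, I ⊆ X ∧ (M q).Indep (I : Set α) ∧
      (X.card : ℝ) ≤ d q * I.card)
    (L : α → Finset κ) (hL : ∀ a, ∑ q, d q ≤ (L a).card) :
    ∃ f : α → κ, (∀ a, f a ∈ L a) ∧ ∀ q j, (M q).Indep {x : α | f x = j} := by
  classical
  rcases isEmpty_or_nonempty α with hα | ⟨⟨a₀⟩⟩
  · refine ⟨fun a => hα.elim a, fun a => hα.elim a, fun q j => ?_⟩
    have : {x : α | (hα.elim x : κ) = j} = ∅ := by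
      ext x; exact hα.elim x
    rw [this]
    exact (M q).empty_indep
  have hd1 : ∀ q, 1 ≤ d q := by
    intro q
    obtain ⟨I, h1, _, h3⟩ := hM q {a₀}
    have h4 : I.card ≤ 1 := (Finset.card_le_card h1).trans (by simp)
    rw [Finset.card_singleton, Nat.cast_one] at h3
    have h5 : I.card ≠ 0 := by
      intro h
      rw [h] at h3
      simp at h3
      linarith
    have h6 : I.card = 1 := by omega
    rw [h6] at h3
    simpa using h3
  have hd0 : ∀ q, 0 ≤ d q := fun q => zero_le_one.trans (hd1 q)
  have hpos : 0 < ∑ q, d q := Finset.sum_pos (fun q _ => lt_of_lt_of_le one_pos (hd1 q))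
    Finset.univ_nonempty
  let cl : Finset (α × κ) → Finset (α × κ) := fun σ => univ.filter fun x => x.1 ∈ σ.image Prod.fst
  let r : Finset (α × κ) → ℕ := fun F => (F.image Prod.fst).card
  have hcl : ∀ σ x, x ∈ cl σ ↔ x.1 ∈ σ.image Prod.fst := by intro σ x; simp [cl]
  have hle : ∀ σ, σ ⊆ cl σ := by
    intro σ x hx
    rw [hcl]
    exact Finset.mem_image_of_mem _ hx
  have hmono : ∀ σ τ : Finset (α × κ), σ ⊆ τ → cl σ ⊆ cl τ := by
    intro σ τ h x hx
    rw [hcl] at hx ⊢
    exact Finset.image_subset_image h hx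
  have himg : ∀ σ, (cl σ).image Prod.fst = σ.image Prod.fst := by
    intro σ
    apply subset_antisymm
    · intro a ha
      obtain ⟨x, hx, rfl⟩ := Finset.mem_image.mp ha
      exact (hcl σ x).mp hx
    · exact Finset.image_subset_image (hle σ)
  have hidem : ∀ σ, cl (cl σ) = cl σ := by
    intro σ
    ext x
    rw [hcl, hcl, himg]
  have hr : ∀ F G : Finset (α × κ), cl F = F → cl G = G → F ⊂ G → r F < r G := by
    intro F G hF hG hFG
    refine Finset.card_lt_card (Finset.ssubset_iff_subset_ne.mpr
      ⟨Finset.image_subset_image hFG.1, fun h => hFG.2 ?_⟩)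
    rw [← hF, ← hG]
    intro x hx
    rw [hcl] at hx ⊢
    rw [h]; exact hx
  have hmain := topHall cl r (Fintype.card α) hle hmono hidem hr
    (fun σ => (∀ q, SI (M q) σ) ∧ ∀ x ∈ σ, x.2 ∈ L x.1)
    ⟨fun q c => by
      have : sl (∅ : Finset (α × κ)) c = ∅ := by ext; simp [mem_sl]
      rw [this, Finset.coe_empty]; exact (M q).empty_indep, by simp⟩
    (fun σ τ h h' => ⟨fun q => (h'.1 q).subset h, fun x hx => h'.2 x (h hx)⟩) ?_
  · obtain ⟨σ, ⟨h1, h2⟩, h3⟩ := hmain
    have h4 : σ.image Prod.fst = univ := by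
      apply Finset.eq_univ_of_card
      apply le_antisymm (Finset.card_le_univ _)
      have : r (cl σ) = (σ.image Prod.fst).card := by simp only [r, himg]
      rw [← this]; exact h3
    have h5 : ∀ a, ∃ c, (a, c) ∈ σ := by
      intro a
      have : a ∈ σ.image Prod.fst := by rw [h4]; exact Finset.mem_univ a
      obtain ⟨⟨a', c⟩, hx, rfl⟩ := Finset.mem_image.mp this
      exact ⟨c, hx⟩
    choose f hf using h5
    refine ⟨f, fun a => h2 _ (hf a), fun q j => (h1 q j).subset fun x hx => ?_⟩
    rw [Finset.mem_coe, mem_sl]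
    have hx' : f x = j := hx
    rw [← hx']
    exact hf x
  · intro F hF hrF
    let W : Finset (α × κ) := univ.filter fun x => x ∉ F ∧ x.2 ∈ L x.1
    have hW : ∀ x, x ∈ W ↔ x ∉ F ∧ x.2 ∈ L x.1 := by intro x; simp [W]
    have hpred : (fun σ : Finset (α × κ) => ((∀ q, SI (M q) σ) ∧ ∀ x ∈ σ, x.2 ∈ L x.1) ∧ Disjoint σ F) =
        fun σ => (∀ q, SI (M q) σ) ∧ σ ⊆ W := by
      funext σ
      apply propext
      constructor
      · rintro ⟨⟨h1, h2⟩, h3⟩
        exact ⟨h1, fun x hx => (hW x).mpr ⟨Finset.disjoint_left.mp h3 hx, h2 x hx⟩⟩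
      · rintro ⟨h1, h2⟩
        exact ⟨⟨h1, fun x hx => ((hW x).mp (h2 hx)).2⟩,
          Finset.disjoint_left.mpr fun x hx => ((hW x).mp (h2 hx)).1⟩
    rw [hpred]
    refine acy_inter (fun q => SI (M q)) (fun q => Scl (M q)) W _ d
      (fun q σ τ h h' => h'.subset h) (fun q σ _ => SI.subset_Scl (hE q) σ)
      (fun q σ v h _ hn => h.mem_Scl_of_insert (hE q) hn)
      (fun q σ σ' h h' hc hs => h.Scl_eq (hE q) h' hc hs)
      (fun q σ h _ => ?_) ?_
    · refine le_trans ?_ (h.card_Scl_le (hd0 q) (hM q))
      exact_mod_cast Finset.card_le_card Finset.inter_subset_left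
    · intro i hi
      let X : Finset α := univ.filter fun a => a ∉ F.image Prod.fst
      have hX : ∀ a, a ∈ X ↔ a ∉ F.image Prod.fst := by intro a; simp [X]
      have hXc : X.card + r F = Fintype.card α := by
        have : X = (F.image Prod.fst)ᶜ := by ext a; simp [X]
        have h0 : r F = (F.image Prod.fst).card := rfl
        rw [this, Finset.card_compl, h0]
        exact Nat.sub_add_cancel (Finset.card_le_univ (F.image Prod.fst))
      have h1 : ∀ x ∈ W, x.1 ∈ X := by
        intro x hx
        rw [hX]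
        intro h
        apply ((hW x).mp hx).1
        rw [← hF, hcl]
        exact h
      have h2 : (X.card : ℝ) * ∑ q, d q ≤ W.card := by
        rw [card_eq_sum_fst W X h1]
        push_cast
        rw [← nsmul_eq_mul, ← Finset.sum_const]
        refine Finset.sum_le_sum fun a ha => (hL a).trans ?_
        have : L a ⊆ univ.filter fun c => (a, c) ∈ W := by
          intro c hc
          simp only [Finset.mem_filter, Finset.mem_univ, true_and]
          rw [hW]
          exact ⟨fun h => (hX a).mp ha (Finset.mem_image_of_mem Prod.fst h), hc⟩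
        exact_mod_cast Finset.card_le_card this
      have h3 : i < X.card := by omega
      have h4 : (i : ℝ) < X.card := by exact_mod_cast h3
      calc (∑ q, d q) * i < (∑ q, d q) * X.card := mul_lt_mul_of_pos_left h4 hpos
        _ = X.card * ∑ q, d q := mul_comm _ _
        _ ≤ W.card := h2
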