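import Pool.Agent.ABC.Pave
import Pool.Agent.Results.MP_aa9a84_co.SumBound

/-!
# The Aharoni-Berger conjecture when one of the two matroids is a paving matroid

`M` is an arbitrary matroid on the finite set `α` with `|X| ≤ k * r_M(X)` for all `X`; `N` is a
paving matroid (every circuit has at least `r(N)` elements) with `|X| ≤ k * r_N(X)` for all `X`.
Then `α` splits into `k + 1` common independent sets.
-/

open Finset ABC in
theorem Pool.Agent.Results.MP_aa9a84_co.Paving.result {α : Type} [Fintype α]
    (M N : Matroid α) (hM : M.E = Set.univ) (hN : N.E = Set.univ) (k : ℕ)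
    (hk : ∀ X : Finset α, ∃ I : Finset α, I ⊆ X ∧ M.Indep (I : Set α) ∧ X.card ≤ k * I.card)
    (hl : ∀ X : Finset α, ∃ I : Finset α, I ⊆ X ∧ N.Indep (I : Set α) ∧ X.card ≤ k * I.card)
    (hpav : ∀ C : Set α, N.IsCircuit C → N.eRank ≤ C.encard) :
    ∃ f : α → Fin (k + 1), ∀ c, M.Indep {x | f x = c} ∧ N.Indep {x | f x = c} := by
  classical
  rcases isEmpty_or_nonempty α with hα | ⟨⟨a₀⟩⟩
  · refine ⟨fun a => hα.elim a, fun c => ⟨?_, ?_⟩⟩
    · rw [Set.eq_empty_of_isEmpty {x : α | (hα.elim x : Fin (k + 1)) = c}]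
      exact M.empty_indep
    · rw [Set.eq_empty_of_isEmpty {x : α | (hα.elim x : Fin (k + 1)) = c}]
      exact N.empty_indep
  set r : ℕ := rkN N Set.univ with hr
  have hcard_r : ∀ I : Finset α, N.Indep (I : Set α) → I.card ≤ r := fun I hI =>
    card_le_rkN N hI (Set.subset_univ _)
  have hsmall : ∀ I : Finset α, I.card < r → N.Indep (I : Set α) := by
    intro I hI
    by_contra hdep
    have hdep' : N.Dep (I : Set α) := (Matroid.not_indep_iff (by rw [hN]; exact Set.subset_univ _)).mp hdep
    obtain ⟨C, hC1, hC2⟩ := hdep'.exists_isCircuit_subset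
    have h1 := hpav C hC2
    have h2 : C.encard ≤ (I.card : ℕ∞) := by
      rw [← Set.encard_coe_eq_coe_finsetCard]
      exact Set.encard_le_encard hC1
    have h3 : (r : ℕ∞) = N.eRank := by
      rw [hr, coe_rkN, ← hN, Matroid.eRk_ground]
    have h4 : (r : ℕ∞) ≤ (I.card : ℕ∞) := by rw [h3]; exact h1.trans h2
    have h5 : r ≤ I.card := by exact_mod_cast h4
    omega
  have hr1 : 1 ≤ r := by
    obtain ⟨I, h1, h2, h3⟩ := hl {a₀}
    have h4 := hcard_r I h2
    rw [Finset.card_singleton] at h3
    by_contra h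
    have h5 : I.card = 0 := by omega
    rw [h5] at h3
    omega
  have hn : Fintype.card α ≤ k * r := by
    obtain ⟨I, _, h2, h3⟩ := hl univ
    exact h3.trans (Nat.mul_le_mul_left k (hcard_r I h2))
  -- equitable partition into `M`-independent sets
  obtain ⟨g, _, hg⟩ := Pool.Agent.Results.MP_aa9a84_co.SumBound.result (κ := Fin (k + 1))
    (ι := Unit) (fun _ => M) (fun _ => hM) (fun _ => (k : ℝ))
    (fun _ X => by
      obtain ⟨I, h1, h2, h3⟩ := hk X
      exact ⟨I, h1, h2, by exact_mod_cast h3⟩)
    (fun _ => univ) (fun _ => by simp)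
  have hg' : ∀ c, M.Indep (cls g c : Set α) := by
    intro c
    refine (hg () c).subset fun x hx => ?_
    exact mem_cls.mp (Finset.mem_coe.mp hx)
  obtain ⟨f₁, hf₁, hf₁e⟩ := exists_equitable M g hg'
  let S : Finset (α → Fin (k + 1)) := univ.filter fun f =>
    (∀ c, M.Indep (cls f c : Set α)) ∧ ∀ a b, (cls f a).card ≤ (cls f b).card + 1
  have hS : ∀ f, f ∈ S ↔ (∀ c, M.Indep (cls f c : Set α)) ∧
      ∀ a b, (cls f a).card ≤ (cls f b).card + 1 := by intro f; simp [S]
  let bad : (α → Fin (k + 1)) → Finset (Fin (k + 1)) := fun f =>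
    univ.filter fun c => ¬N.Indep (cls f c : Set α)
  have hbad : ∀ f c, c ∈ bad f ↔ ¬N.Indep (cls f c : Set α) := by intro f c; simp [bad]
  obtain ⟨f, hfS, hmin⟩ := Finset.exists_min_image S (fun f => (bad f).card) ⟨f₁, (hS f₁).mpr ⟨hf₁, hf₁e⟩⟩
  -- sizes
  have hsize : ∀ f ∈ S, ∀ c, (cls f c).card ≤ r := by
    intro f hf c
    by_contra hlt
    push Not at hlt
    have h1 : ∀ c' ∈ (univ : Finset (Fin (k + 1))), r ≤ (cls f c').card := by
      intro c' _
      have := ((hS f).mp hf).2 c c'
      omega
    have h2 := Finset.card_nsmul_le_sum _ _ _ h1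
    rw [sum_cls, Finset.card_univ, Fintype.card_fin, smul_eq_mul] at h2
    nlinarith
  have hbadcard : ∀ f ∈ S, ∀ c ∈ bad f, (cls f c).card = r := by
    intro f hf c hc
    refine le_antisymm (hsize f hf c) ?_
    by_contra h
    exact (hbad f c).mp hc (hsmall _ (by omega))
  have hsize2 : ∀ f ∈ S, (bad f).Nonempty → ∀ c, r - 1 ≤ (cls f c).card := by
    rintro f hf ⟨c₀, hc₀⟩ c
    have h1 := hbadcard f hf c₀ hc₀
    have h2 := ((hS f).mp hf).2 c₀ c
    omega
  have hsmallcls : ∀ f ∈ S, (bad f).Nonempty → ∃ c, (cls f c).card = r - 1 := by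
    intro f hf hne
    by_contra hcon
    push Not at hcon
    have h1 : ∀ c ∈ (univ : Finset (Fin (k + 1))), r ≤ (cls f c).card := by
      intro c _
      have h2 := hsize2 f hf hne c
      have h3 := hcon c
      omega
    have h2 := Finset.card_nsmul_le_sum _ _ _ h1
    rw [sum_cls, Finset.card_univ, Fintype.card_fin, smul_eq_mul] at h2
    nlinarith
  -- closure of a bad class
  have hclos : ∀ I : Finset α, ¬N.Indep (I : Set α) → I.card = r → ∀ y ∈ I,
      N.closure ((I.erase y : Finset α) : Set α) = N.closure (I : Set α) := by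
    intro I hI hIc y hy
    have h1 : N.Indep ((I.erase y : Finset α) : Set α) := hsmall _ (by
      rw [Finset.card_erase_of_mem hy]; omega)
    have h2 : y ∈ N.closure ((I.erase y : Finset α) : Set α) := by
      by_contra h3
      apply hI
      rw [← Finset.insert_erase hy, Finset.coe_insert, h1.insert_indep_iff]
      left
      exact ⟨by rw [hN]; trivial, h3⟩
    apply subset_antisymm
    · exact N.closure_subset_closure (by exact_mod_cast Finset.erase_subset y I)
    · apply N.closure_subset_closure_of_subset_closure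
      intro z hz
      by_cases hzy : z = y
      · rw [hzy]; exact h2
      · exact N.subset_closure _ (by rw [hN]; exact Set.subset_univ _)
          (by exact_mod_cast Finset.mem_erase.mpr ⟨hzy, by exact_mod_cast hz⟩)
  have hclosJ : ∀ I J : Finset α, ¬N.Indep (I : Set α) → I.card = r → J.card = r - 1 →
      (J : Set α) ⊆ N.closure (I : Set α) → N.closure (J : Set α) = N.closure (I : Set α) := by
    intro I J hI hIc hJc hJI
    obtain ⟨y, hy⟩ : I.Nonempty := by rw [← Finset.card_pos]; omega
    have h1 := hclos I hI hIc y hy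
    rw [← h1]
    rw [← h1] at hJI
    refine closure_eq_of_card hN (hsmall _ ?_) (hsmall _ (by omega)) hJI ?_
    · rw [Finset.card_erase_of_mem hy]; omega
    · rw [Finset.card_erase_of_mem hy]; omega
  -- the swap of two elements keeps membership in `S`
  have hswapS : ∀ f ∈ S, ∀ x y a b, f x = b → f y = a → a ≠ b →
      M.Indep ((insert x ((cls f a).erase y) : Finset α) : Set α) →
      M.Indep ((insert y ((cls f b).erase x) : Finset α) : Set α) → swp f x y a b ∈ S := by
    intro f hf x y a b hx hy hab h1 h2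
    obtain ⟨h3, h4⟩ := (hS f).mp hf
    have hcards : ∀ c, (cls (swp f x y a b) c).card = (cls f c).card := by
      intro c
      by_cases hca : c = a
      · subst hca
        rw [cls_swp_a hx hy hab]
        exact card_exch (fun h => hab (((mem_cls.mp h).symm.trans hx))) (mem_cls.mpr hy)
      · by_cases hcb : c = b
        · subst hcb
          rw [cls_swp_b hx hy hab]
          exact card_exch (fun h => hab (hy.symm.trans (mem_cls.mp h))) (mem_cls.mpr hx)
        · rw [cls_swp_c hx hy hca hcb]
    rw [hS]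
    refine ⟨fun c => ?_, fun c c' => by rw [hcards, hcards]; exact h4 c c'⟩
    by_cases hca : c = a
    · subst hca
      rw [cls_swp_a hx hy hab]; exact h1
    · by_cases hcb : c = b
      · subst hcb
        rw [cls_swp_b hx hy hab]; exact h2
      · rw [cls_swp_c hx hy hca hcb]; exact h3 c
  -- a good new class
  have hgoodnew : ∀ I : Finset α, ¬N.Indep (I : Set α) → I.card = r → ∀ y ∈ I, ∀ x,
      x ∉ N.closure (I : Set α) → N.Indep ((insert x (I.erase y) : Finset α) : Set α) := by
    intro I hI hIc y hy x hx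
    have h1 : N.Indep ((I.erase y : Finset α) : Set α) := hsmall _ (by
      rw [Finset.card_erase_of_mem hy]; omega)
    rw [Finset.coe_insert, h1.insert_indep_iff]
    left
    exact ⟨by rw [hN]; trivial, by rw [hclos I hI hIc y hy]; exact hx⟩
  have hnotin : ∀ I : Finset α, ∀ x, x ∉ N.closure (I : Set α) → x ∉ I := fun I x hx h =>
    hx (N.subset_closure _ (by rw [hN]; exact Set.subset_univ _) (by exact_mod_cast h))
  -- property P
  have hP : ∀ f ∈ S, (∀ g ∈ S, (bad f).card ≤ (bad g).card) → ∀ c₀ ∈ bad f, ∀ c₁,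
      (cls f c₁).card = r - 1 → (cls f c₁ : Set α) ⊆ N.closure (cls f c₀ : Set α) := by
    intro f hfS hmin c₀ hc₀ c₁ hc₁ x hx
    by_contra hxn
    have hI := (hbad f c₀).mp hc₀
    have hIc := hbadcard f hfS c₀ hc₀
    have hxI := hnotin _ x hxn
    have hxJ : x ∈ cls f c₁ := by exact_mod_cast hx
    obtain ⟨y, hyI, hyJ, h1, h2⟩ := sym_exch M hM (((hS f).mp hfS).1 c₀) (((hS f).mp hfS).1 c₁)
      (by omega) hxJ hxI
    have hab : c₀ ≠ c₁ := by rintro rfl; omega
    have hfx : f x = c₁ := mem_cls.mp hxJ
    have hfy : f y = c₀ := mem_cls.mp hyI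
    have hS' := hswapS f hfS x y c₀ c₁ hfx hfy hab h1 h2
    have hlt : (bad (swp f x y c₀ c₁)).card < (bad f).card := by
      refine Finset.card_lt_card (Finset.ssubset_iff_subset_ne.mpr ⟨fun c hc => ?_, fun h => ?_⟩)
      · rw [hbad] at hc ⊢
        by_cases hca : c = c₀
        · rw [hca]; exact hI
        · by_cases hcb : c = c₁
          · subst hcb
            exfalso
            apply hc
            rw [cls_swp_b hfx hfy hab]
            refine hsmall _ ?_
            rw [card_exch hyJ hxJ]; omega
          · rw [cls_swp_c hfx hfy hca hcb] at hc; exact hc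
      · rw [← h, hbad, cls_swp_a hfx hfy hab] at hc₀
        exact hc₀ (hgoodnew _ hI hIc y hyI x hxn)
    have := hmin _ hS'
    omega
  -- the minimiser has no bad class
  have hnobad : bad f = ∅ := by
    by_contra hne
    have hne' : (bad f).Nonempty := Finset.nonempty_iff_ne_empty.mpr hne
    obtain ⟨c₀, hc₀⟩ := id hne'
    obtain ⟨c₁, hc₁⟩ := hsmallcls f hfS hne'
    have hI := (hbad f c₀).mp hc₀
    have hIc := hbadcard f hfS c₀ hc₀
    have hJH := hP f hfS hmin c₀ hc₀ c₁ hc₁
    have hJcl := hclosJ _ _ hI hIc hc₁ hJH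
    set H : Set α := N.closure (cls f c₀ : Set α) with hH
    have h01 : c₀ ≠ c₁ := by rintro rfl; omega
    -- good classes of size `r` have at most one element outside `H`
    have hQ : ∀ c₂, c₂ ∉ bad f → (cls f c₂).card = r → ∀ x ∈ cls f c₂, ∀ x' ∈ cls f c₂,
        x ∉ H → x' ∉ H → x = x' := by
      intro c₂ hc₂ hc₂r x hx x' hx' hxH hx'H
      by_contra hxx
      have h02 : c₀ ≠ c₂ := fun h => hc₂ (h ▸ hc₀)
      have h12 : c₁ ≠ c₂ := by rintro rfl; omega
      obtain ⟨y, hyI, hyG, h1, h2⟩ := sym_exch M hM (((hS f).mp hfS).1 c₀) (((hS f).mp hfS).1 c₂)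
        (by omega) hx (hnotin _ x hxH)
      have hfx : f x = c₂ := mem_cls.mp hx
      have hfy : f y = c₀ := mem_cls.mp hyI
      have hS' := hswapS f hfS x y c₀ c₂ hfx hfy h02 h1 h2
      have hc₀' : c₀ ∉ bad (swp f x y c₀ c₂) := by
        rw [hbad, not_not, cls_swp_a hfx hfy h02]
        exact hgoodnew _ hI hIc y hyI x hxH
      have hsub : ∀ c, c ≠ c₂ → c ∈ bad (swp f x y c₀ c₂) → c ∈ bad f := by
        intro c hcc hc
        by_cases hca : c = c₀
        · rw [hca]; exact hc₀
        · rw [hbad, cls_swp_c hfx hfy hca hcc] at hc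
          exact (hbad f c).mpr hc
      have hB'bad : c₂ ∈ bad (swp f x y c₀ c₂) := by
        by_contra hcon
        have hlt : (bad (swp f x y c₀ c₂)).card < (bad f).card := by
          refine Finset.card_lt_card (Finset.ssubset_iff_subset_ne.mpr
            ⟨fun c hc => hsub c (fun h => hcon (h ▸ hc)) hc, fun h => ?_⟩)
          rw [h] at hc₀'
          exact hc₀' hc₀
        have := hmin _ hS'
        omega
      have hle : (bad (swp f x y c₀ c₂)).card ≤ (bad f).card := by
        have h3 : bad (swp f x y c₀ c₂) ⊆ insert c₂ ((bad f).erase c₀) := by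
          intro c hc
          by_cases hcc : c = c₂
          · rw [hcc]; exact Finset.mem_insert_self _ _
          · exact Finset.mem_insert_of_mem (Finset.mem_erase.mpr
              ⟨fun h => hc₀' (h ▸ hc), hsub c hcc hc⟩)
        refine (Finset.card_le_card h3).trans ((Finset.card_insert_le _ _).trans ?_)
        rw [Finset.card_erase_add_one hc₀]
      have hmin' : ∀ g ∈ S, (bad (swp f x y c₀ c₂)).card ≤ (bad g).card := fun g hg =>
        hle.trans (hmin g hg)
      have hcls1 : cls (swp f x y c₀ c₂) c₁ = cls f c₁ := cls_swp_c hfx hfy (Ne.symm h01) h12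
      have h5 := hP _ hS' hmin' c₂ hB'bad c₁ (by rw [hcls1]; exact hc₁)
      have h6 := hclosJ _ _ ((hbad _ _).mp hB'bad) (hbadcard _ hS' c₂ hB'bad) (by rw [hcls1]; exact hc₁) h5
      rw [hcls1, hJcl] at h6
      apply hx'H
      rw [h6, cls_swp_b hfx hfy h02]
      refine N.subset_closure _ (by rw [hN]; exact Set.subset_univ _) ?_
      exact_mod_cast Finset.mem_insert_of_mem (Finset.mem_erase.mpr ⟨fun h => hxx h.symm, hx'⟩)
    -- bad classes lie in `H`
    have hR : ∀ c ∈ bad f, (cls f c : Set α) ⊆ H := by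
      intro c hc
      have h1 := hP f hfS hmin c hc c₁ hc₁
      have h2 := hclosJ _ _ ((hbad f c).mp hc) (hbadcard f hfS c hc) hc₁ h1
      rw [← hJcl, h2]
      exact N.subset_closure _ (by rw [hN]; exact Set.subset_univ _)
    -- counting
    let P : Finset (Fin (k + 1)) := univ.filter fun c => (cls f c).card = r
    have hPm : ∀ c, c ∈ P ↔ (cls f c).card = r := by intro c; simp [P]
    have hc₀P : c₀ ∈ P := (hPm c₀).mpr hIc
    have hcnt : ∀ c, (cls f c).card = r - 1 + if c ∈ P then 1 else 0 := by
      intro c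
      have h1 := hsize f hfS c
      have h2 := hsize2 f hfS hne' c
      split_ifs with h
      · rw [(hPm c).mp h]; omega
      · have : (cls f c).card ≠ r := fun h' => h ((hPm c).mpr h')
        omega
    have hntot : Fintype.card α = (k + 1) * (r - 1) + P.card := by
      rw [← sum_cls f, Finset.sum_congr rfl fun c _ => hcnt c, Finset.sum_add_distrib,
        Finset.sum_const, Finset.card_univ, Fintype.card_fin, smul_eq_mul, Finset.sum_ite_mem,
        Finset.univ_inter, Finset.sum_const, smul_eq_mul, mul_one]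
    let Hf : Finset α := univ.filter fun x => x ∈ H
    have hHf : ∀ x, x ∈ Hf ↔ x ∈ H := by intro x; simp [Hf]
    have hout : (univ \ Hf).card ≤ (P.erase c₀).card := by
      refine Finset.card_le_card_of_injOn f ?_ ?_
      · intro x hx
        have hxH : x ∉ H := fun h => (Finset.mem_sdiff.mp (Finset.mem_coe.mp hx)).2 ((hHf x).mpr h)
        have hxc : x ∈ cls f (f x) := mem_cls.mpr rfl
        have h1 : f x ∉ bad f := fun h => hxH (hR _ h (by exact_mod_cast hxc))
        have h2 : f x ∈ P := by
          by_contra h3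
          have h4 : (cls f (f x)).card = r - 1 := by rw [hcnt, if_neg h3, add_zero]
          exact hxH (hP f hfS hmin c₀ hc₀ (f x) h4 (by exact_mod_cast hxc))
        exact Finset.mem_coe.mpr (Finset.mem_erase.mpr ⟨fun h => h1 (h ▸ hc₀), h2⟩)
      · intro x hx x' hx' hxx
        have hxH : x ∉ H := fun h => (Finset.mem_sdiff.mp (Finset.mem_coe.mp hx)).2 ((hHf x).mpr h)
        have hx'H : x' ∉ H := fun h =>
          (Finset.mem_sdiff.mp (Finset.mem_coe.mp hx')).2 ((hHf x').mpr h)
        have hxc : x ∈ cls f (f x) := mem_cls.mpr rfl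
        have hx'c : x' ∈ cls f (f x) := mem_cls.mpr hxx.symm
        have h1 : f x ∉ bad f := fun h => hxH (hR _ h (by exact_mod_cast hxc))
        have h2 : (cls f (f x)).card = r := by
          by_contra h3
          have h4 : (cls f (f x)).card = r - 1 := by
            rw [hcnt, if_neg (fun h => h3 ((hPm _).mp h)), add_zero]
          exact hxH (hP f hfS hmin c₀ hc₀ (f x) h4 (by exact_mod_cast hxc))
        exact hQ (f x) h1 h2 x hxc x' hx'c hxH hx'H
    have hHcard : Hf.card ≤ k * (r - 1) := by
      obtain ⟨I', h1, h2, h3⟩ := hl Hf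
      refine h3.trans (Nat.mul_le_mul_left k ?_)
      obtain ⟨y, hy⟩ : (cls f c₀).Nonempty := by rw [← Finset.card_pos]; omega
      have h4 : I'.card ≤ ((cls f c₀).erase y).card := by
        refine indep_card_le (hsmall _ ?_) h2 ?_
        · rw [Finset.card_erase_of_mem hy]; omega
        · rw [hclos _ hI hIc y hy]
          intro z hz
          exact (hHf z).mp (h1 hz)
      rw [Finset.card_erase_of_mem hy] at h4
      omega
    have h1 : Hf.card + (univ \ Hf).card = Fintype.card α := by
      rw [← Finset.card_univ, add_comm]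
      exact Finset.card_sdiff_add_card_eq_card (Finset.subset_univ Hf)
    rw [Finset.card_erase_of_mem hc₀P] at hout
    have h2 : 1 ≤ P.card := Finset.card_pos.mpr ⟨c₀, hc₀P⟩
    have h3 : (k + 1) * (r - 1) = k * (r - 1) + (r - 1) := by ring
    omega
  refine ⟨f, fun c => ⟨?_, ?_⟩⟩
  · refine (((hS f).mp hfS).1 c).subset fun x hx => ?_
    exact_mod_cast mem_cls.mpr hx
  · have h1 : c ∉ bad f := by rw [hnobad]; exact Finset.notMem_empty c
    rw [hbad, not_not] at h1
    refine h1.subset fun x hx => ?_
    exact_mod_cast mem_cls.mpr hx
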