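import Pool.Agent.ABC.Peel
import Pool.Agent.Results.MP_aa9a84_co.SumBound

/-!
# The Aharoni-Berger conjecture for an arbitrary matroid and a strongly base orderable matroid of
# density at most two

`M` is an arbitrary matroid on the finite set `α` with `|X| ≤ k * r_M(X)` for all `X`; `N` is
strongly base orderable with `|X| ≤ 2 * r_N(X)` for all `X`.  Then `α` splits into `k + 1` common
independent sets.
-/

open Finset ABC in
theorem Pool.Agent.Results.MP_aa9a84_co.SBOTwo.result {α : Type} [Fintype α]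
    (M N : Matroid α) (hM : M.E = Set.univ) (hN : N.E = Set.univ) (k : ℕ)
    (hk : ∀ X : Finset α, ∃ I : Finset α, I ⊆ X ∧ M.Indep (I : Set α) ∧ X.card ≤ k * I.card)
    (hl : ∀ X : Finset α, ∃ I : Finset α, I ⊆ X ∧ N.Indep (I : Set α) ∧ X.card ≤ 2 * I.card)
    (hSBO : ∀ B B' : Set α, N.IsBase B → N.IsBase B' → ∃ π : α → α, Set.BijOn π B B' ∧
      ∀ X ⊆ B, N.IsBase ((B \ X) ∪ π '' X)) :
    ∃ f : α → Fin (k + 1), ∀ c, M.Indep {x | f x = c} ∧ N.Indep {x | f x = c} := by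
  classical
  rcases isEmpty_or_nonempty α with hα | ⟨⟨a₀⟩⟩
  · refine ⟨fun a => hα.elim a, fun c => ⟨?_, ?_⟩⟩
    · rw [Set.eq_empty_of_isEmpty {x : α | (hα.elim x : Fin (k + 1)) = c}]
      exact M.empty_indep
    · rw [Set.eq_empty_of_isEmpty {x : α | (hα.elim x : Fin (k + 1)) = c}]
      exact N.empty_indep
  have hk1 : 1 ≤ k := by
    obtain ⟨I, _, _, h3⟩ := hk {a₀}
    rw [Finset.card_singleton] at h3
    by_contra h
    have : k = 0 := by omega
    rw [this, zero_mul] at h3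
    omega
  -- two independent sets of `N` cover
  obtain ⟨g, _, hg⟩ := Pool.Agent.Results.MP_aa9a84_co.SumBound.result (κ := Fin 2) (ι := Unit)
    (fun _ => N) (fun _ => hN) (fun _ => 2)
    (fun _ X => by
      obtain ⟨I, h1, h2, h3⟩ := hl X
      exact ⟨I, h1, h2, by exact_mod_cast h3⟩)
    (fun _ => univ) (fun _ => by simp)
  obtain ⟨B₀, hB₀, hI₀⟩ := (hg () 0).exists_isBase_superset
  obtain ⟨B₁, hB₁, hI₁⟩ := (hg () 1).exists_isBase_superset
  obtain ⟨π, hπ, hex⟩ := hSBO B₀ B₁ hB₀ hB₁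
  have hcov : ∀ x, x ∉ B₀ → x ∈ B₁ := by
    intro x hx
    have h1 : g x ≠ 0 := fun h => hx (hI₀ h)
    have h2 : g x = 1 := by
      have : ∀ t : Fin 2, t ≠ 0 → t = 1 := by decide
      exact this _ h1
    exact hI₁ h2
  have hinv : ∀ x, ∃ y, (x ∉ B₀ → y ∈ B₀ ∧ π y = x) ∧ (x ∈ B₀ → y = x) := by
    intro x
    by_cases hx : x ∈ B₀
    · exact ⟨x, fun h => absurd hx h, fun _ => rfl⟩
    · obtain ⟨y, hy, hyx⟩ := hπ.surjOn (hcov x hx)
      exact ⟨y, fun _ => ⟨hy, hyx⟩, fun h => absurd h hx⟩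
  choose q hq1 hq2 using hinv
  have hfib : ∀ j, (Ap q univ j).card ≤ 2 := by
    intro j
    have h1 : Ap q univ j ⊆ {j, π j} := by
      intro x hx
      have hx1 : q x = j := (mem_Ap.mp hx).2
      rw [Finset.mem_insert, Finset.mem_singleton]
      by_cases hxB : x ∈ B₀
      · left; rw [← hx1, hq2 x hxB]
      · right; rw [← hx1]; exact (hq1 x hxB).2.symm
    exact (Finset.card_le_card h1).trans Finset.card_le_two
  have hTind : ∀ T : Set α, (∀ x ∈ T, ∀ y ∈ T, q x = q y → x = y) → N.Indep T := by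
    intro T hT
    have hX : q '' (T \ B₀) ⊆ B₀ := by
      rintro y ⟨x, ⟨_, hx⟩, rfl⟩
      exact (hq1 x hx).1
    refine (hex _ hX).indep.subset fun x hx => ?_
    by_cases hxB : x ∈ B₀
    · left
      refine ⟨hxB, ?_⟩
      rintro ⟨y, ⟨hy, hyB⟩, hyx⟩
      have h1 : q x = q y := by rw [hyx, hq2 x hxB]
      have h2 := hT x hx y hy h1
      exact hyB (h2 ▸ hxB)
    · right
      exact ⟨q x, ⟨x, ⟨hx, hxB⟩, rfl⟩, (hq1 x hxB).2⟩
  obtain ⟨f, hf1, hf2⟩ := part_sum M hM k hk1 hk q 2 univ (by norm_num) hfib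
  refine ⟨fun x => ⟨f x, hf1 x⟩, fun c => ⟨?_, ?_⟩⟩
  · refine (hf2 c.val).1.subset fun x hx => ⟨Finset.mem_univ x, ?_⟩
    exact congrArg Fin.val hx
  · refine hTind _ fun x hx y hy hxy => ?_
    have h1 : f x = f y := (congrArg Fin.val hx).trans (congrArg Fin.val hy).symm
    exact (hf2 (f x)).2 x (Finset.mem_univ x) y (Finset.mem_univ y) h1 hxy
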