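import Pool.Agent.ABC.Peel

/-!
# A matroid and a transversal matroid: `k + l - 1` common independent sets

`M` is an arbitrary matroid on the finite set `α` with `|X| ≤ k * r_M(X)` for all `X`; `N` is the
transversal matroid of a finite family of sets (`R x j`: the element `x` belongs to the set `j`)
with `|X| ≤ l * r_N(X)` for all `X`.  Then `α` splits into `k + l - 1` common independent sets.
-/

open Finset ABC in
theorem Pool.Agent.Results.MP_aa9a84_co.TransversalSum.result {α J : Type} [Fintype α] [Fintype J]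
    (M N : Matroid α) (hM : M.E = Set.univ) (k l : ℕ)
    (hk : ∀ X : Finset α, ∃ I : Finset α, I ⊆ X ∧ M.Indep (I : Set α) ∧ X.card ≤ k * I.card)
    (hl : ∀ X : Finset α, ∃ I : Finset α, I ⊆ X ∧ N.Indep (I : Set α) ∧ X.card ≤ l * I.card)
    (R : α → J → Prop)
    (hR : ∀ I : Set α, N.Indep I ↔ ∃ g : α → J, Set.InjOn g I ∧ ∀ x ∈ I, R x (g x)) :
    ∃ f : α → Fin (k + l - 1), ∀ c, M.Indep {x | f x = c} ∧ N.Indep {x | f x = c} := by
  classical
  rcases isEmpty_or_nonempty α with hα | ⟨⟨a₀⟩⟩
  · refine ⟨fun a => hα.elim a, fun c => ⟨?_, ?_⟩⟩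
    · rw [Set.eq_empty_of_isEmpty {x : α | (hα.elim x : Fin (k + l - 1)) = c}]
      exact M.empty_indep
    · rw [Set.eq_empty_of_isEmpty {x : α | (hα.elim x : Fin (k + l - 1)) = c}]
      exact N.empty_indep
  have hk1 : 1 ≤ k := by
    obtain ⟨I, _, _, h3⟩ := hk {a₀}
    rw [Finset.card_singleton] at h3
    by_contra h
    have : k = 0 := by omega
    rw [this, zero_mul] at h3
    omega
  have hl1 : 1 ≤ l := by
    obtain ⟨I, _, _, h3⟩ := hl {a₀}
    rw [Finset.card_singleton] at h3
    by_contra h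
    have : l = 0 := by omega
    rw [this, zero_mul] at h3
    omega
  -- Hall's theorem with capacities
  let t : α → Finset (J × Fin l) := fun x => univ.filter fun p => R x p.1
  have ht : ∀ x p, p ∈ t x ↔ R x p.1 := by intro x p; simp [t]
  have hall : ∀ X : Finset α, X.card ≤ (X.biUnion t).card := by
    intro X
    obtain ⟨I, h1, h2, h3⟩ := hl X
    obtain ⟨g, hg1, hg2⟩ := (hR _).mp h2
    refine h3.trans ?_
    have h4 : (I.image g) ×ˢ (univ : Finset (Fin l)) ⊆ X.biUnion t := by
      intro p hp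
      obtain ⟨h5, _⟩ := Finset.mem_product.mp hp
      obtain ⟨x, hx, hxp⟩ := Finset.mem_image.mp h5
      refine Finset.mem_biUnion.mpr ⟨x, h1 hx, (ht x p).mpr ?_⟩
      rw [← hxp]
      exact hg2 x hx
    have h5 := Finset.card_le_card h4
    rw [Finset.card_product, Finset.card_univ, Fintype.card_fin,
      Finset.card_image_of_injOn (fun x hx y hy h => hg1 hx hy h)] at h5
    rw [mul_comm]
    exact h5
  obtain ⟨h, hinj, hmem⟩ := (Finset.all_card_le_biUnion_card_iff_exists_injective t).mp hall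
  let q : α → J := fun x => (h x).1
  have hq : ∀ x, R x (q x) := fun x => (ht x _).mp (hmem x)
  have hfib : ∀ j, (Ap q univ j).card ≤ l := by
    intro j
    have h1 : (Ap q univ j).card ≤ (univ : Finset (Fin l)).card := by
      refine Finset.card_le_card_of_injOn (fun x => (h x).2) (fun _ _ => Finset.mem_coe.mpr (Finset.mem_univ _)) ?_
      intro x hx y hy hxy
      have hx1 : q x = j := (mem_Ap.mp (Finset.mem_coe.mp hx)).2
      have hy1 : q y = j := (mem_Ap.mp (Finset.mem_coe.mp hy)).2
      exact hinj (Prod.ext (hx1.trans hy1.symm) hxy)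
    simpa using h1
  obtain ⟨f, hf1, hf2⟩ := part_sum M hM k hk1 hk q l univ hl1 hfib
  refine ⟨fun x => ⟨f x, hf1 x⟩, fun c => ⟨?_, ?_⟩⟩
  · refine (hf2 c.val).1.subset fun x hx => ⟨Finset.mem_univ x, ?_⟩
    exact congrArg Fin.val hx
  · rw [hR]
    refine ⟨q, fun x hx y hy hxy => ?_, fun x _ => hq x⟩
    have h1 : f x = f y := (congrArg Fin.val hx).trans (congrArg Fin.val hy).symm
    exact (hf2 (f x)).2 x (Finset.mem_univ x) y (Finset.mem_univ y) h1 hxy
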